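import Pool.Agent.Q27.VS.Final2

/-!
# Strong infinite uniform spread of simple vigorous groups
-/

set_option autoImplicit false

open Set

namespace Pool.Agent.Results.MP_e4017d_al.StrongInfiniteSpread

/-- Cantor space -/
abbrev Cantor : Type := ℕ → Bool

/-- Vigorous groups of homeomorphisms of Cantor space. -/
def Vigorous (G : Subgroup (Cantor ≃ₜ Cantor)) : Prop :=
  ∀ A B C : Set Cantor, IsClopen A → IsClopen B → IsClopen C → B.Nonempty → C.Nonempty →
    B ⊂ A → C ⊂ A → ∃ γ ∈ G, γ '' B ⊆ C ∧ ∀ x, x ∉ A → γ x = x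

/-- The orbit of `x` under the homeomorphism `g`. -/
def orbit (g : Cantor ≃ₜ Cantor) (x : Cantor) : Set Cantor := {y | ∃ n : ℤ, (g ^ n) x = y}

/-- `σ` witnesses strong infinite uniform spread of the group `Γ`. -/
def Witness {Γ : Type} [Group Γ] (σ : Γ) : Prop :=
  ∀ k : ℕ, ∀ α : Fin k → Γ, (∀ i, α i ≠ 1) →
    ∃ β : Γ, IsConj σ β ∧ ∀ i, Subgroup.closure ({α i, β} : Set Γ) = ⊤

/-- Strong infinite uniform spread. -/
def StrongInfiniteUniformSpread (Γ : Type) [Group Γ] : Prop := ∃ σ : Γ, Witness σ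

/-- **Theorem.** Let `G` be a finitely generated simple vigorous group of homeomorphisms of Cantor
space. Every element of `G` all of whose orbits are infinite witnesses strong infinite uniform
spread; in particular, if there is such an element then `G` has strong infinite uniform spread. -/
theorem result (G : Subgroup (Cantor ≃ₜ Cantor)) (hV : Vigorous G) [IsSimpleGroup G]
    [Group.FG G] :
    (∀ σ : G, (∀ x, (orbit σ x).Infinite) → Witness σ) ∧
    ((∃ σ : G, ∀ x, (orbit σ x).Infinite) → StrongInfiniteUniformSpread G) := by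
  have hV' : Pool.Agent.Q27.VS.Vig G := by
    intro A B D hA hB hD hBA hDA hBn hDn hB' hD'
    obtain ⟨γ, hγ, h1, h2⟩ := hV A B D hA hB hD hBn hDn (Set.ssubset_iff_subset_ne.2 ⟨hBA, hB'⟩)
      (Set.ssubset_iff_subset_ne.2 ⟨hDA, hD'⟩)
    exact ⟨γ, hγ, h1, h2⟩
  have hF : G.FG := (Group.fg_iff_subgroup_fg G).1 inferInstance
  have key : ∀ σ : G, (∀ x, (orbit σ x).Infinite) → Witness σ := by
    intro σ hσ k α hα
    have hap : Pool.Agent.Q27.VS.Aper (σ : Cantor ≃ₜ Cantor) := by
      intro x j hj hx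
      apply hσ x
      -- the orbit is the image of a finite interval
      have hper : ∀ n : ℤ, (((σ : Cantor ≃ₜ Cantor) ^ j) ^ n) x = x := by
        intro n
        induction n using Int.induction_on with
        | zero => rfl
        | succ n ih => rw [zpow_add_one, Homeomorph.mul_apply, hx, ih]
        | pred n ih =>
          rw [zpow_sub_one, Homeomorph.mul_apply]
          have h1 : (((σ : Cantor ≃ₜ Cantor) ^ j)⁻¹) x = x := by
            rw [Homeomorph.inv_apply, Homeomorph.symm_apply_eq]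
            exact hx.symm
          rw [h1, ih]
      refine ((Set.finite_Ico (0 : ℤ) |j|).image
        fun n => ((σ : Cantor ≃ₜ Cantor) ^ n) x).subset ?_
      rintro y ⟨n, rfl⟩
      refine ⟨n % |j|, ⟨Int.emod_nonneg _ (abs_ne_zero.2 hj), Int.emod_lt_of_pos _
        (abs_pos.2 hj)⟩, ?_⟩
      have h2 : n = n % |j| + |j| * (n / |j|) := (Int.emod_add_mul_ediv n |j|).symm
      have h3 : (((σ : Cantor ≃ₜ Cantor) ^ (|j| * (n / |j|)))) x = x := by
        rcases abs_choice j with h4 | h4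
        · rw [h4, zpow_mul]; exact hper _
        · rw [h4, neg_mul, ← mul_neg, zpow_mul]; exact hper _
      show ((σ : Cantor ≃ₜ Cantor) ^ (n % |j|)) x = ((σ : Cantor ≃ₜ Cantor) ^ n) x
      conv_rhs => rw [h2, zpow_add, Homeomorph.mul_apply, h3]
    obtain ⟨g, hg, h1⟩ := Pool.Agent.Q27.VS.main2 Cantor G hV'
      (Pool.Agent.Q27.VS.simp_of_isSimpleGroup G) hF σ σ.2 hap k
      (fun i => (α i : Cantor ≃ₜ Cantor)) (fun i => (α i).2) (fun i h2 => hα i (Subtype.ext h2))
    refine ⟨⟨g, hg⟩ * σ * ⟨g, hg⟩⁻¹, isConj_iff.2 ⟨⟨g, hg⟩, rfl⟩, fun i => ?_⟩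
    apply Pool.Agent.Q27.VS.closure_top
    rw [image_pair]
    exact h1 i
  exact ⟨key, fun ⟨σ, hσ⟩ => ⟨σ, key σ hσ⟩⟩

end Pool.Agent.Results.MP_e4017d_al.StrongInfiniteSpread
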